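import Pool.Agent.W586.CS.Stm

/-! Project CS, part IP. -/

set_option autoImplicit false
open MvPolynomial

namespace Pool.Agent.W479.CS

open Pool.Agent.W586.CS

variable {d : ℕ} {ι : Type} [Fintype ι]

lemma fl_fl (j : Fin d) (I : Finset (Fin d)) : fl j (fl j I) = I := by
  unfold fl
  by_cases h : j ∈ I
  · rw [if_pos h, if_neg (Finset.notMem_erase j I), Finset.insert_erase h]
  · rw [if_neg h, if_pos (Finset.mem_insert_self j I), Finset.erase_insert h]

lemma mem_fl_ne (j i : Fin d) (I : Finset (Fin d)) (h : i ≠ j) : i ∈ fl j I ↔ i ∈ I := by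
  unfold fl
  split_ifs
  · simp [h]
  · simp [h]

lemma sg_fl (j : Fin d) (I : Finset (Fin d)) : sg j (fl j I) = sg j I := by
  unfold sg
  congr 2
  ext i
  simp only [Finset.mem_filter]
  constructor
  · rintro ⟨h1, h2⟩
    exact ⟨(mem_fl_ne j i I h2.ne).1 h1, h2⟩
  · rintro ⟨h1, h2⟩
    exact ⟨(mem_fl_ne j i I h2.ne).2 h1, h2⟩

lemma ep_fl (j : Fin d) (I : Finset (Fin d)) : ep j (fl j I) = - ep j I := by
  unfold ep fl
  by_cases h : j ∈ I
  · rw [if_pos h, if_pos h, if_neg (Finset.notMem_erase j I)]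
  · rw [if_neg h, if_neg h, if_pos (Finset.mem_insert_self j I), neg_neg]

/-- the flip as an equivalence -/
def fle (j : Fin d) : Finset (Fin d) ≃ Finset (Fin d) where
  toFun := fl j
  invFun := fl j
  left_inv := fl_fl j
  right_inv := fl_fl j

lemma sum_fl {M : Type} [AddCommMonoid M] (j : Fin d) (F : Finset (Fin d) → M) :
    ∑ I, F I = ∑ I, F (fl j I) :=
  (Equiv.sum_comp (fle j) F).symm

theorem main : S_IP := by
  intro d ι _ g
  refine ⟨?_, ?_, ?_, ?_, ?_, ?_, ?_, ?_, ?_⟩
  · intro f h
    unfold ip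
    simp only [mul_comm]
  · intro f f' h
    unfold ip
    simp only [Pi.add_apply, add_mul, map_add, Finset.sum_add_distrib]
  · intro c f h
    unfold ip
    simp only [Pi.smul_apply, smul_mul_assoc, map_smul, smul_eq_mul, Finset.mul_sum]
  · intro f hf
    unfold ip
    have hnn : ∀ I a, 0 ≤ g.Φ (f I a * f I a) := by
      intro I a
      by_cases h0 : f I a = 0
      · rw [h0, mul_zero, map_zero]
      · exact (g.pos _ h0).le
    obtain ⟨I, hI⟩ : ∃ I, f I ≠ 0 := by
      by_contra hcon
      push Not at hcon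
      exact hf (funext hcon)
    obtain ⟨a, ha⟩ : ∃ a, f I a ≠ 0 := by
      by_contra hcon
      push Not at hcon
      exact hI (funext hcon)
    refine Finset.sum_pos' (fun I _ => Finset.sum_nonneg fun a _ => hnn I a) ⟨I, Finset.mem_univ _, ?_⟩
    exact Finset.sum_pos' (fun a _ => hnn I a) ⟨a, Finset.mem_univ _, g.pos _ ha⟩
  · intro j f h
    unfold ip
    rw [sum_fl j (fun I => ∑ a, g.Φ ((G ι j f) I a * h I a))]
    refine Finset.sum_congr rfl fun I _ => Finset.sum_congr rfl fun a _ => ?_
    change g.Φ ((sg j (fl j I) • f (fl j (fl j I)) a) * h (fl j I) a) =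
      g.Φ (f I a * (sg j I • h (fl j I) a))
    rw [fl_fl, sg_fl, smul_mul_assoc, mul_smul_comm]
  · intro j f h
    unfold ip
    rw [sum_fl j (fun I => ∑ a, g.Φ ((Cc ι j f) I a * h I a)), ← Finset.sum_neg_distrib]
    refine Finset.sum_congr rfl fun I _ => ?_
    rw [← Finset.sum_neg_distrib]
    refine Finset.sum_congr rfl fun a _ => ?_
    change g.Φ (((ep j (fl j I) * sg j (fl j I)) • f (fl j (fl j I)) a) * h (fl j I) a) =
      - g.Φ (f I a * ((ep j I * sg j I) • h (fl j I) a))
    rw [fl_fl, sg_fl, ep_fl, smul_mul_assoc, mul_smul_comm, map_smul, map_smul, smul_eq_mul,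
      smul_eq_mul]
    ring
  · intro j f h
    unfold ip
    refine Finset.sum_congr rfl fun I _ => Finset.sum_congr rfl fun a _ => ?_
    change g.Φ (X j * f I a * h I a) = g.Φ (f I a * (X j * h I a))
    congr 1
    ring
  · intro j f h
    unfold ip
    refine Finset.sum_congr rfl fun I _ => Finset.sum_congr rfl fun a _ => ?_
    change g.Φ (pderiv j (f I a) * h I a) = g.Φ (f I a * ((2 : ℝ) • (X j * h I a) -
      pderiv j (h I a)))
    have h1 := g.ibp j (f I a * h I a)
    have h2 : pderiv j (f I a * h I a) = pderiv j (f I a) * h I a + f I a * pderiv j (h I a) := by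
      rw [Derivation.leibniz, smul_eq_mul, smul_eq_mul]
      ring
    rw [h2, map_add] at h1
    rw [mul_sub, map_sub, mul_smul_comm, map_smul, smul_eq_mul]
    have h3 : f I a * (X j * h I a) = X j * (f I a * h I a) := by ring
    rw [h3]
    linarith
  · intro A f h hA
    unfold ip
    refine Finset.sum_congr rfl fun I _ => ?_
    have e1 : ∀ a, g.Φ ((Am A f) I a * h I a) = ∑ b, A a b * g.Φ (f I b * h I a) := by
      intro a
      change g.Φ ((∑ b, A a b • f I b) * h I a) = _
      rw [Finset.sum_mul, map_sum]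
      refine Finset.sum_congr rfl fun b _ => ?_
      rw [smul_mul_assoc, map_smul, smul_eq_mul]
    have e2 : ∀ a, g.Φ (f I a * (Am A h) I a) = ∑ b, A a b * g.Φ (f I a * h I b) := by
      intro a
      change g.Φ (f I a * (∑ b, A a b • h I b)) = _
      rw [Finset.mul_sum, map_sum]
      refine Finset.sum_congr rfl fun b _ => ?_
      rw [mul_smul_comm, map_smul, smul_eq_mul]
    rw [Finset.sum_congr rfl fun a _ => e1 a, Finset.sum_congr rfl fun a _ => e2 a,
      Finset.sum_comm]
    refine Finset.sum_congr rfl fun a _ => Finset.sum_congr rfl fun b _ => ?_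
    rw [hA.apply]

end Pool.Agent.W479.CS
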